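import Mathlib

namespace Pool.Agent.Results.MP_e1ef61_al.Cat

/-- algebras of type 2,1,1 -/
structure Alg where
  A : Type
  mul : A → A → A
  l : A → A
  r : A → A

inductive Term
  | var : ℕ → Term
  | mul : Term → Term → Term
  | l : Term → Term
  | r : Term → Term

def Term.ev (S : Alg) (v : ℕ → S.A) : Term → S.A
  | .var n => v n
  | .mul s t => S.mul (s.ev S v) (t.ev S v)
  | .l s => S.l (s.ev S v)
  | .r s => S.r (s.ev S v)

/-- satisfaction of a quasi-identity -/
def Sat (S : Alg) (q : List (Term × Term) × Term × Term) : Prop :=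
  ∀ v, (∀ p ∈ q.1, p.1.ev S v = p.2.ev S v) → q.2.1.ev S v = q.2.2.ev S v

def LStar {A : Type} [Mul A] (x y : A) : Prop :=
  ∀ a b : WithOne A, ↑x * a = ↑x * b ↔ ↑y * a = ↑y * b

def RStar {A : Type} [Mul A] (x y : A) : Prop :=
  ∀ a b : WithOne A, a * ↑x = b * ↑x ↔ a * ↑y = b * ↑y

/-- the semigroup with two idempotent generators -/
def F : Type := (conGen fun u w : FreeSemigroup Bool => ∃ c, u = .of c * .of c ∧ w = .of c).Quotient

instance : Mul F := by unfold F; infer_instance

/-- amiable semigroups avoiding `F` -/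
def InK (S : Alg) : Prop :=
  letI : Mul S.A := ⟨S.mul⟩
  (∀ x y z : S.A, x * y * z = x * (y * z)) ∧
  (∀ x e : S.A, (e * e = e ∧ LStar x e) ↔ e = S.l x) ∧
  (∀ x e : S.A, (e * e = e ∧ RStar x e) ↔ e = S.r x) ∧
  ¬ ∃ φ : F →ₙ* S.A, Function.Injective φ

section
open Function

def C (n : ℕ) : Submonoid (Function.End (Fin (n + 1))) where
  carrier := {f | Monotone f ∧ ∀ i, i ≤ f i}
  one_mem' := ⟨monotone_id, fun _ => le_rfl⟩
  mul_mem' := fun hf hg => ⟨hf.1.comp hg.1, fun i => (hg.2 i).trans (hf.2 _)⟩

variable {n : ℕ}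

def ap (f : C n) (i : Fin (n + 1)) : Fin (n + 1) := f.1 i

lemma ap_mul (f g : C n) (i) : ap (f * g) i = ap f (ap g i) := rfl
lemma ext' {f g : C n} (h : ∀ i, ap f i = ap g i) : f = g := Subtype.ext (funext h)
lemma ap_mono (f : C n) : Monotone (ap f) := f.2.1
lemma le_ap (f : C n) (i) : i ≤ ap f i := f.2.2 i

noncomputable def lf (x : C n) (i : Fin (n + 1)) : Fin (n + 1) :=
  (Finset.univ.filter fun j => ap x j = ap x i).max' ⟨i, by simp⟩

lemma lf_spec (x : C n) (i) : ap x (lf x i) = ap x i := by
  have := Finset.max'_mem (Finset.univ.filter fun j => ap x j = ap x i) ⟨i, by simp⟩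
  exact (Finset.mem_filter.1 this).2

lemma le_lf (x : C n) {i j} (h : ap x j = ap x i) : j ≤ lf x i :=
  Finset.le_max' _ _ (by simpa using h)

lemma lf_congr (x : C n) {i j} (h : ap x i = ap x j) : lf x i = lf x j :=
  le_antisymm (le_lf x ((lf_spec x i).trans h)) (le_lf x ((lf_spec x j).trans h.symm))

noncomputable def ll (x : C n) : C n := ⟨lf x, by
  intro i j hij
  by_cases h : lf x i ≤ j
  · exact h.trans (le_lf x rfl)
  · apply le_lf
    apply le_antisymm
    · rw [lf_spec]; exact ap_mono x hij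
    · exact ap_mono x (not_le.1 h).le, fun i => le_lf x rfl⟩

lemma ll_ker (x : C n) (i j) : ap x i = ap x j ↔ ap (ll x) i = ap (ll x) j :=
  ⟨lf_congr x, fun h => by
    have h' : lf x i = lf x j := h
    rw [← lf_spec x i, h', lf_spec]⟩

noncomputable def rf (x : C n) (i : Fin (n + 1)) : Fin (n + 1) :=
  (Finset.univ.filter fun j => i ≤ j ∧ ∃ k, ap x k = j).min' ⟨ap x i, by simp [le_ap]⟩

lemma rf_spec (x : C n) (i) : i ≤ rf x i ∧ ∃ k, ap x k = rf x i := by
  have := Finset.min'_mem (Finset.univ.filter fun j => i ≤ j ∧ ∃ k, ap x k = j)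
    ⟨ap x i, by simp [le_ap]⟩
  exact (Finset.mem_filter.1 this).2

lemma rf_le (x : C n) {i k} (h : i ≤ ap x k) : rf x i ≤ ap x k :=
  Finset.min'_le _ _ (by simpa using h)

lemma rf_ap (x : C n) (k) : rf x (ap x k) = ap x k :=
  le_antisymm (rf_le x le_rfl) (rf_spec x _).1

noncomputable def rr (x : C n) : C n := ⟨rf x, by
  intro i j hij
  obtain ⟨h, k, hk⟩ := rf_spec x j
  rw [← hk] at h ⊢
  exact rf_le x (hij.trans h), fun i => (rf_spec x i).1⟩

def un : WithOne (C n) → C n := WithOne.recOneCoe 1 id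

lemma wl (x : C n) (a : WithOne (C n)) : ↑x * a = ↑(x * un a) := by
  induction a using WithOne.recOneCoe with
  | one => simp [un]
  | coe a => simp [un]

lemma wr (x : C n) (a : WithOne (C n)) : a * ↑x = ↑(un a * x) := by
  induction a using WithOne.recOneCoe with
  | one => simp [un]
  | coe a => simp [un]

lemma hL (x e : C n) : (e * e = e ∧ LStar x e) ↔ e = ll x := by
  have h1 : LStar x (ll x) := by
    intro a b
    simp only [wl, WithOne.coe_inj]
    constructor
    · intro h
      exact ext' fun i => (ll_ker x _ _).1 (congrArg (ap · i) h)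
    · intro h
      exact ext' fun i => (ll_ker x _ _).2 (congrArg (ap · i) h)
  have h2 : ll x * ll x = ll x := ext' fun i => lf_congr x (lf_spec x i)
  constructor
  · rintro ⟨he, h⟩
    have a1 : ll x * e = ll x := by
      have := (h1 e 1).1 ((h e 1).2 (by rw [← WithOne.coe_mul, he, mul_one]))
      rwa [mul_one, ← WithOne.coe_mul, WithOne.coe_inj] at this
    have a2 : e * ll x = e := by
      have := (h (ll x) 1).1 ((h1 (ll x) 1).2 (by rw [← WithOne.coe_mul, h2, mul_one]))
      rwa [mul_one, ← WithOne.coe_mul, WithOne.coe_inj] at this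
    refine ext' fun i => le_antisymm ?_ ?_
    · rw [← a1, ap_mul]; exact le_ap _ _
    · conv_rhs => rw [← a2, ap_mul]
      exact le_ap _ _
  · rintro rfl
    exact ⟨h2, h1⟩

lemma hR (x e : C n) : (e * e = e ∧ RStar x e) ↔ e = rr x := by
  have h1 : RStar x (rr x) := by
    intro a b
    simp only [wr, WithOne.coe_inj]
    constructor
    · intro h
      refine ext' fun i => ?_
      obtain ⟨k, hk⟩ := (rf_spec x i).2
      have := congrArg (ap · k) h
      simp only [ap_mul, hk] at this
      exact this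
    · intro h
      refine ext' fun i => ?_
      have := congrArg (ap · (ap x i)) h
      simp only [ap_mul] at this
      rwa [show ap (rr x) (ap x i) = ap x i from rf_ap x i] at this
  have h2 : rr x * rr x = rr x := ext' fun i => by
    obtain ⟨k, hk⟩ := (rf_spec x i).2
    change rf x (rf x i) = rf x i
    rw [← hk, rf_ap]
  constructor
  · rintro ⟨he, h⟩
    have a1 : e * rr x = rr x := by
      have := (h1 e 1).1 ((h e 1).2 (by rw [← WithOne.coe_mul, he, one_mul]))
      rwa [one_mul, ← WithOne.coe_mul, WithOne.coe_inj] at this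
    have a2 : rr x * e = e := by
      have := (h (rr x) 1).1 ((h1 (rr x) 1).2 (by rw [← WithOne.coe_mul, h2, one_mul]))
      rwa [one_mul, ← WithOne.coe_mul, WithOne.coe_inj] at this
    refine ext' fun i => le_antisymm ?_ ?_
    · rw [← a1, ap_mul]; exact ap_mono _ (le_ap _ _)
    · conv_rhs => rw [← a2, ap_mul]
      exact ap_mono _ (le_ap _ _)
  · rintro rfl
    exact ⟨h2, h1⟩

noncomputable def CA (n : ℕ) : Alg := ⟨C n, (· * ·), ll, rr⟩

noncomputable def PA : Alg :=
  ⟨∀ n, C n, (· * ·), fun x n => ll (x n), fun x n => rr (x n)⟩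

lemma ev_pi (v : ℕ → PA.A) (t : Term) (n : ℕ) :
    t.ev PA v n = t.ev (CA n) (fun k => v k n) := by
  induction t with
  | var k => rfl
  | mul s t hs ht => simp only [Term.ev, ← hs, ← ht]; rfl
  | l s hs => simp only [Term.ev, ← hs]; rfl
  | r s hs => simp only [Term.ev, ← hs]; rfl

def st (c : Bool) (i : ℕ) : ℕ := if (i % 2 = 1) = c then i else i + 1

def gen (c : Bool) (n : ℕ) : C n :=
  ⟨fun i => ⟨min (st c i) n, by omega⟩, by
    intro i j hij
    have : (i : ℕ) ≤ j := hij
    simp only [Fin.mk_le_mk, st]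
    cases c <;> split_ifs <;> simp_all <;> omega, by
    intro i
    have := i.2
    rw [Fin.le_def]
    simp only [st]
    split_ifs <;> omega⟩

lemma gen_val (c : Bool) (i : Fin (n + 1)) : (ap (gen c n) i : ℕ) = min (st c i) n := rfl

lemma gen_idem (c : Bool) : gen c n * gen c n = gen c n := ext' fun i => by
  apply Fin.ext
  have := i.2
  rw [ap_mul, gen_val, gen_val]
  simp only [st]
  cases c <;> split_ifs <;> simp_all <;> omega

abbrev K : Con (FreeSemigroup Bool) :=
  conGen fun u w : FreeSemigroup Bool => ∃ c, u = .of c * .of c ∧ w = .of c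

def ψ : FreeSemigroup Bool →ₙ* (∀ n, C n) := FreeSemigroup.lift fun c n => gen c n

def φ : F →ₙ* (∀ n, C n) where
  toFun := fun x => Con.liftOn (c := K) x ψ (by
    intro a b h
    have : K ≤ Con.ker ψ := by
      apply Con.conGen_le.2
      rintro u w ⟨c, rfl, rfl⟩
      change ψ _ = ψ _
      rw [map_mul]
      funext n
      simp [ψ, gen_idem]
    exact this h)
  map_mul' := by
    intro a b
    induction a using Con.induction_on (c := K)
    induction b using Con.induction_on (c := K)
    exact map_mul ψ _ _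

/-- alternating word with last letter `c` and length `k + 1` -/
def alt (c : Bool) : ℕ → FreeSemigroup Bool
  | 0 => .of c
  | k + 1 => .of (if k % 2 = 0 then !c else c) * alt c k

lemma alt_nf (w : FreeSemigroup Bool) : ∃ c k, K w (alt c k) := by
  induction w using FreeSemigroup.recOnMul with
  | ih1 c => exact ⟨c, 0, K.refl _⟩
  | ih2 x y _ ih =>
    obtain ⟨c, k, h⟩ := ih
    by_cases hx : x = (if k % 2 = 0 then !c else c)
    · exact ⟨c, k + 1, by rw [alt, ← hx]; exact K.mul (K.refl _) h⟩
    · refine ⟨c, k, K.trans (K.mul (K.refl _) h) ?_⟩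
      have h0 : K (.of x * .of x) (.of x) := ConGen.Rel.of _ _ ⟨x, rfl, rfl⟩
      cases k with
      | zero =>
        have : x = c := by revert hx; cases x <;> cases c <;> simp
        rw [this] at h0 ⊢
        exact h0
      | succ k =>
        have : x = (if k % 2 = 0 then !c else c) := by
          revert hx
          cases x <;> cases c <;> simp <;> omega
        rw [alt, ← this, ← mul_assoc]
        exact K.mul h0 (K.refl _)

lemma alt_val (c : Bool) (k : ℕ) (i : Fin (n + 1)) :
    (ap (ψ (alt c k) n) i : ℕ) = min (st c i + k) n := by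
  induction k with
  | zero => simp [alt, ψ, gen_val]
  | succ k ih =>
    rw [alt, map_mul, Pi.mul_apply, ap_mul]
    simp only [ψ, FreeSemigroup.lift_of] at ih ⊢
    rw [gen_val, ih]
    simp only [st]
    cases c <;> split_ifs <;> simp_all <;> omega

lemma φ_inj : Injective φ := by
  intro a b h
  induction a using Con.induction_on (c := K) with | H a => ?_
  induction b using Con.induction_on (c := K) with | H b => ?_
  obtain ⟨c, k, ha⟩ := alt_nf a
  obtain ⟨c', k', hb⟩ := alt_nf b
  have ea : (a : K.Quotient) = alt c k := K.eq.2 ha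
  have eb : (b : K.Quotient) = alt c' k' := K.eq.2 hb
  rw [ea, eb] at h ⊢
  have h' : ψ (alt c k) = ψ (alt c' k') := h
  have h0 := alt_val (n := k + k' + 3) c k ⟨0, by omega⟩
  have h1 := alt_val (n := k + k' + 3) c k ⟨1, by omega⟩
  rw [h', alt_val] at h0 h1
  have : c = c' ∧ k = k' := by
    cases c <;> cases c' <;> simp [st] at h0 h1 ⊢ <;> omega
  rw [this.1, this.2]

lemma F_inf : Infinite F := by
  refine Infinite.of_injective (fun k => ((alt true k : K.Quotient) : F)) ?_
  intro k k' h
  have h' : ψ (alt true k) = ψ (alt true k') := congrArg φ h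
  have h1 := alt_val (n := k + k' + 3) true k ⟨1, by omega⟩
  rw [h', alt_val] at h1
  simp [st] at h1
  omega

end

theorem result :
    ¬ ∃ Q : Set (List (Term × Term) × Term × Term), ∀ S : Alg, InK S ↔ ∀ q ∈ Q, Sat S q := by
  rintro ⟨Q, hQ⟩
  have h1 : ∀ n, InK (CA n) := by
    intro n
    refine ⟨fun x y z => mul_assoc (G := C n) x y z, hL, hR, ?_⟩
    rintro ⟨f, hf⟩
    have := F_inf
    have : Finite (Function.End (Fin (n + 1))) := inferInstanceAs (Finite (Fin (n + 1) → Fin (n + 1)))
    have : Finite (CA n).A := inferInstanceAs (Finite (C n))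
    exact not_injective_infinite_finite f hf
  have h2 : InK PA := by
    rw [hQ]
    intro q hq v hv
    funext n
    rw [ev_pi, ev_pi]
    apply (hQ _).1 (h1 n) q hq
    intro p hp
    rw [← ev_pi, ← ev_pi, hv p hp]
  exact h2.2.2.2 ⟨φ, φ_inj⟩

end Pool.Agent.Results.MP_e1ef61_al.Cat
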